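import Pool.Agent.Q89.NM.Mat

/-! Norming, complete contractions, injectivity and injective envelopes for C*-algebras of
operators on Hilbert spaces. All maps are given by functions, of which only the values on the
domain in question matter. -/

set_option autoImplicit false

namespace Q89.NM

universe u

noncomputable section

/-- Norms of rectangular matrices. -/
class MatNorm (V : Type*) where
  /-- the norm of an `m × n` matrix -/
  mn {m n : ℕ} : Matrix (Fin m) (Fin n) V → ℝ

/-- For operators on a Hilbert space `H`: the norm of an `m × n` matrix as an operator from `H^n` to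
`H^m`. -/
instance {H : Type*} [NormedAddCommGroup H] [InnerProductSpace ℂ H] : MatNorm (H →L[ℂ] H) :=
  ⟨mnorm⟩

/-! In the following, `V` and `W` are algebras of all bounded operators on Hilbert spaces. -/

section Generic

variable {V W : Type*} [CStarAlgebra V] [MatNorm V] [CStarAlgebra W] [MatNorm W]

/-- linear on the set `S` -/
def LinOn (S : Set V) (f : V → W) : Prop :=
  (∀ x ∈ S, ∀ y ∈ S, f (x + y) = f x + f y) ∧ ∀ (c : ℂ), ∀ x ∈ S, f (c • x) = c • f x

/-- The map `f` is completely contractive on the set `S`: it does not increase the norms of square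
matrices over `S`. -/
def CC (S : Set V) (f : V → W) : Prop :=
  ∀ (k : ℕ) (X : Matrix (Fin k) (Fin k) V), (∀ i j, X i j ∈ S) →
    MatNorm.mn (X.map f) ≤ MatNorm.mn X

/-- Complete isometry on the set `S`. -/
def CI (S : Set V) (f : V → W) : Prop :=
  ∀ (k : ℕ) (X : Matrix (Fin k) (Fin k) V), (∀ i j, X i j ∈ S) →
    MatNorm.mn (X.map f) = MatNorm.mn X

/-- `A` is a C*-subalgebra. -/
structure IsCStar (A : Set V) : Prop where
  closed : IsClosed A
  zero : 0 ∈ A
  add : ∀ a ∈ A, ∀ b ∈ A, a + b ∈ A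
  smul : ∀ (c : ℂ), ∀ a ∈ A, c • a ∈ A
  mul : ∀ a ∈ A, ∀ b ∈ A, a * b ∈ A
  star : ∀ a ∈ A, star a ∈ A

/-- `ι` is an injective `*`-homomorphism from `A` to `I`. -/
structure IsEmbedding (A : Set V) (I : Set W) (ι : V → W) : Prop where
  maps : Set.MapsTo ι A I
  linear : LinOn A ι
  mul : ∀ a ∈ A, ∀ b ∈ A, ι (a * b) = ι a * ι b
  star : ∀ a ∈ A, ι (star a) = star (ι a)
  inj : Set.InjOn ι A

/-- The only linear complete contraction of `I` into itself which fixes the copy `ι(A)` is the
identity. -/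
def Rigid (A : Set V) (I : Set W) (ι : V → W) : Prop :=
  ∀ v : W → W, LinOn I v → Set.MapsTo v I I → CC I v → (∀ a ∈ A, v (ι a) = ι a) →
    ∀ x ∈ I, v x = x

variable (V) in
/-- Completely contractive linear maps into `I` from subspaces `E` of `V` extend to completely
contractive linear maps from `V` into `I`. -/
def InjectiveFor (I : Set W) : Prop :=
  ∀ (E : Submodule ℂ V) (w : V → W), LinOn (E : Set V) w → Set.MapsTo w E I → CC (E : Set V) w →
    ∃ w' : V → W, LinOn Set.univ w' ∧ Set.MapsTo w' Set.univ I ∧ CC Set.univ w' ∧ Set.EqOn w' w E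

/-- The rows over `S` in the unit ball. -/
def BallRow (S : Set V) (k : ℕ) : Set (Fin k → V) :=
  {R | (∀ i, R i ∈ S) ∧ MatNorm.mn (Matrix.of fun (_ : Fin 1) (i : Fin k) => R i) ≤ 1}

/-- The columns over `S` in the unit ball. -/
def BallCol (S : Set V) (k : ℕ) : Set (Fin k → V) :=
  {C | (∀ j, C j ∈ S) ∧ MatNorm.mn (Matrix.of fun (j : Fin k) (_ : Fin 1) => C j) ≤ 1}

/-- The product of a row, a matrix and a column. -/
def rxc {k : ℕ} (R : Fin k → V) (X : Matrix (Fin k) (Fin k) V) (C : Fin k → V) : V :=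
  ∑ i, ∑ j, R i * X i j * C j

/-- `S` norms `B`: for every matrix `X` over `B`, the norm of `X` is the supremum of the norms of
`R X C`, where `R` and `C` are rows and columns over `S` in the unit balls. -/
def Norms (S B : Set V) : Prop :=
  ∀ (k : ℕ) (X : Matrix (Fin k) (Fin k) V), (∀ i j, X i j ∈ B) →
    IsLUB {r : ℝ | ∃ R ∈ BallRow S k, ∃ C ∈ BallCol S k, r = ‖rxc R X C‖} (MatNorm.mn X)

end Generic

section

variable {H K : Type} [NormedAddCommGroup H] [InnerProductSpace ℂ H] [CompleteSpace H]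
  [NormedAddCommGroup K] [InnerProductSpace ℂ K] [CompleteSpace K]

/-- The C*-algebra `I ⊆ B(K)` is injective: completely contractive linear maps into `I` from
subspaces of `B(L)`, for Hilbert spaces `L`, extend to completely contractive linear maps from
`B(L)` into `I`. -/
def IsInjective (I : Set (K →L[ℂ] K)) : Prop :=
  ∀ (L : Type u) [NormedAddCommGroup L] [InnerProductSpace ℂ L] [CompleteSpace L],
    InjectiveFor (L →L[ℂ] L) I

/-- `I ⊆ B(K)`, together with the injective `*`-homomorphism `ι : A → I`, is an injective envelope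
of the C*-algebra `A ⊆ B(H)`: it is an injective C*-algebra, and the only linear complete
contraction of `I` into itself fixing the copy of `A` is the identity. -/
structure IsInjectiveEnvelope (A : Set (H →L[ℂ] H)) (I : Set (K →L[ℂ] K))
    (ι : (H →L[ℂ] H) → K →L[ℂ] K) : Prop where
  algebra : IsCStar I
  embedding : IsEmbedding A I ι
  injective : IsInjective.{u} I
  rigid : Rigid A I ι

/-- `j(I)` is a completely isometric copy in `B(H)` of the injective envelope `I` of `A`, with
`j(a) = a` for `a ∈ A`. -/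
structure IsCopy (A : Set (H →L[ℂ] H)) (I : Set (K →L[ℂ] K))
    (ι : (H →L[ℂ] H) → K →L[ℂ] K) (j : (K →L[ℂ] K) → H →L[ℂ] H) : Prop where
  envelope : IsInjectiveEnvelope.{u} A I ι
  linear : LinOn I j
  isometric : CI I j
  fixes : ∀ a ∈ A, j (ι a) = a

/-- Some completely isometric copy in `B(H)` of the injective envelope of `A` norms `B`. -/
def CopyNorms (A B : Set (H →L[ℂ] H)) : Prop :=
  ∃ (K : Type) (_ : NormedAddCommGroup K) (_ : InnerProductSpace ℂ K) (_ : CompleteSpace K)
    (I : Set (K →L[ℂ] K)) (ι : (H →L[ℂ] H) → K →L[ℂ] K) (j : (K →L[ℂ] K) → H →L[ℂ] H),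
    IsCopy.{u} A I ι j ∧ Norms (j '' I) B

theorem mn_eq {m n : ℕ} (X : Matrix (Fin m) (Fin n) (H →L[ℂ] H)) :
    MatNorm.mn X = ‖matOp X‖ := mnorm_eq X

theorem mem_BallRow {S : Set (H →L[ℂ] H)} {k : ℕ} {R : Fin k → H →L[ℂ] H} : R ∈ BallRow S k ↔
    (∀ i, R i ∈ S) ∧ ‖matOp (Matrix.of fun (_ : Fin 1) (i : Fin k) => R i)‖ ≤ 1 := by
  rw [← mn_eq]
  rfl

theorem mem_BallCol {S : Set (H →L[ℂ] H)} {k : ℕ} {C : Fin k → H →L[ℂ] H} : C ∈ BallCol S k ↔
    (∀ i, C i ∈ S) ∧ ‖matOp (Matrix.of fun (j : Fin k) (_ : Fin 1) => C j)‖ ≤ 1 := by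
  rw [← mn_eq]
  rfl

end

/-- auxiliary typed version of complete contractions -/
def CC' {α L K : Type*} [NormedAddCommGroup L] [InnerProductSpace ℂ L] [NormedAddCommGroup K]
    [InnerProductSpace ℂ K] (i : α → L →L[ℂ] L) (p : α → K →L[ℂ] K) : Prop :=
  ∀ (k : ℕ) (X : Matrix (Fin k) (Fin k) α), ‖matOp (X.map p)‖ ≤ ‖matOp (X.map i)‖

/-- auxiliary typed version of complete isometries -/
def CI' {α L K : Type*} [NormedAddCommGroup L] [InnerProductSpace ℂ L] [NormedAddCommGroup K]
    [InnerProductSpace ℂ K] (i : α → L →L[ℂ] L) (p : α → K →L[ℂ] K) : Prop :=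
  ∀ (k : ℕ) (X : Matrix (Fin k) (Fin k) α), ‖matOp (X.map p)‖ = ‖matOp (X.map i)‖

theorem CC_iff {L K : Type*} [NormedAddCommGroup L] [InnerProductSpace ℂ L] [CompleteSpace L]
    [NormedAddCommGroup K] [InnerProductSpace ℂ K] [CompleteSpace K] (S : Set (L →L[ℂ] L)) (f : (L →L[ℂ] L) → K →L[ℂ] K) :
    CC S f ↔ CC' (fun x : S => (x : L →L[ℂ] L)) (fun x : S => f x) := by
  constructor
  · intro h k X
    have h1 := h k (X.map fun x : S => (x : L →L[ℂ] L)) fun i j => (X i j).2
    have h2 : mnorm _ ≤ mnorm _ := h1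
    rw [mnorm_eq, mnorm_eq] at h2
    exact h2
  · intro h k X hX
    show mnorm _ ≤ mnorm _
    rw [mnorm_eq, mnorm_eq]
    exact h k (Matrix.of fun i j => ⟨X i j, hX i j⟩)

theorem CI_iff {L K : Type*} [NormedAddCommGroup L] [InnerProductSpace ℂ L] [CompleteSpace L]
    [NormedAddCommGroup K] [InnerProductSpace ℂ K] [CompleteSpace K] (S : Set (L →L[ℂ] L)) (f : (L →L[ℂ] L) → K →L[ℂ] K) :
    CI S f ↔ CI' (fun x : S => (x : L →L[ℂ] L)) (fun x : S => f x) := by
  constructor
  · intro h k X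
    have h1 := h k (X.map fun x : S => (x : L →L[ℂ] L)) fun i j => (X i j).2
    have h2 : mnorm _ = mnorm _ := h1
    rw [mnorm_eq, mnorm_eq] at h2
    exact h2
  · intro h k X hX
    show mnorm _ = mnorm _
    rw [mnorm_eq, mnorm_eq]
    exact h k (Matrix.of fun i j => ⟨X i j, hX i j⟩)

end

end Q89.NM
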