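import Pool.Agent.Q89.NM.Defs

/-! The example: convergent sequences, with the limit acting on two extra coordinates. -/

set_option autoImplicit false

namespace Q89.NM

open Filter Topology

noncomputable section

/-! ### ultralimits -/

/-- a free ultrafilter -/
def U : Ultrafilter ℕ := Filter.hyperfilter ℕ

theorem U_le : (U : Filter ℕ) ≤ atTop := by
  rw [← Nat.cofinite_eq_atTop]
  exact Filter.hyperfilter_le_cofinite

/-- the ultralimit -/
def lm (f : ℕ → ℂ) : ℂ := limUnder (U : Filter ℕ) f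

theorem lm_tendsto {f : ℕ → ℂ} {C : ℝ} (hf : ∀ n, ‖f n‖ ≤ C) :
    Tendsto f (U : Filter ℕ) (𝓝 (lm f)) := by
  obtain ⟨x, -, hx⟩ := (isCompact_closedBall (0 : ℂ) C).ultrafilter_le_nhds (U.map f) (by
    rw [le_principal_iff]
    exact Filter.mem_map.mpr (Filter.univ_mem' fun n => by simpa using hf n))
  exact tendsto_nhds_limUnder ⟨x, hx⟩

theorem lm_eq {f : ℕ → ℂ} {a : ℂ} (h : Tendsto f (U : Filter ℕ) (𝓝 a)) : lm f = a :=
  h.limUnder_eq

/-! ### the extension of sequences -/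

/-- the index set: two extra points -/
abbrev J : Type := ℕ ⊕ Bool

/-- extension of a sequence to the two extra points, by ultralimits -/
def ex (f : ℕ → ℂ) : J → ℂ := Sum.elim f fun b => lm fun n => f (2 * n + b.toNat)

theorem ex_inl (f : ℕ → ℂ) (n : ℕ) : ex f (Sum.inl n) = f n := rfl

theorem ex_tendsto {f : ℕ → ℂ} {C : ℝ} (hf : ∀ n, ‖f n‖ ≤ C) (b : Bool) :
    Tendsto (fun n => f (2 * n + b.toNat)) (U : Filter ℕ) (𝓝 (ex f (Sum.inr b))) :=
  lm_tendsto fun n => hf _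

theorem ex_inr {f : ℕ → ℂ} {b : Bool} {a : ℂ}
    (h : Tendsto (fun n => f (2 * n + b.toNat)) (U : Filter ℕ) (𝓝 a)) :
    ex f (Sum.inr b) = a := lm_eq h

theorem norm_ex_le {f : ℕ → ℂ} {C : ℝ} (hf : ∀ n, ‖f n‖ ≤ C) (s : J) : ‖ex f s‖ ≤ C := by
  rcases s with n | b
  · exact hf n
  · exact le_of_tendsto (ex_tendsto hf b).norm (Eventually.of_forall fun n => hf _)

theorem ex_add {f g : ℕ → ℂ} {C D : ℝ} (hf : ∀ n, ‖f n‖ ≤ C) (hg : ∀ n, ‖g n‖ ≤ D) :
    ex (f + g) = ex f + ex g := by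
  funext s
  rcases s with n | b
  · rfl
  · exact ex_inr ((ex_tendsto hf b).add (ex_tendsto hg b))

theorem ex_smul {f : ℕ → ℂ} {C : ℝ} (hf : ∀ n, ‖f n‖ ≤ C) (c : ℂ) : ex (c • f) = c • ex f := by
  funext s
  rcases s with n | b
  · rfl
  · exact ex_inr ((ex_tendsto hf b).const_smul c)

/-! ### the algebra of multiplication operators -/

section MulAlg

variable (ι : Type) [DecidableEq ι]

/-- The C*-algebra of all multiplication operators. -/
def MulAlg : StarSubalgebra ℂ (HH ι →L[ℂ] HH ι) where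
  carrier := {T | ∃ f, IsMul T f}
  mul_mem' := by
    rintro S T ⟨f, hf⟩ ⟨g, hg⟩
    exact ⟨_, hf.mul hg⟩
  add_mem' := by
    rintro S T ⟨f, hf⟩ ⟨g, hg⟩
    exact ⟨_, hf.add hg⟩
  algebraMap_mem' c := ⟨_, IsMul.const c⟩
  star_mem' := by
    rintro S ⟨f, hf⟩
    exact ⟨_, hf.star⟩

variable {ι}

theorem mem_MulAlg {T : HH ι →L[ℂ] HH ι} : T ∈ MulAlg ι ↔ ∃ f, IsMul T f := Iff.rfl

/-- the diagonal -/
def dg (T : HH ι →L[ℂ] HH ι) : ι → ℂ := fun i => T (HH.δ i) i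

theorem dg_le (T : HH ι →L[ℂ] HH ι) (i : ι) : ‖dg T i‖ ≤ ‖T‖ := diag_le T i

theorem dg_add (S T : HH ι →L[ℂ] HH ι) : dg (S + T) = dg S + dg T := rfl

theorem dg_smul (c : ℂ) (S : HH ι →L[ℂ] HH ι) : dg (c • S) = c • dg S := rfl

theorem IsMul.dg_eq {T : HH ι →L[ℂ] HH ι} {f : ι → ℂ} (h : IsMul T f) : dg T = f := by
  funext i
  exact (h.eq_diag i).symm

theorem isMul_dg {T : HH ι →L[ℂ] HH ι} (h : T ∈ MulAlg ι) : IsMul T (dg T) := by
  obtain ⟨f, hf⟩ := h
  rw [hf.dg_eq]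
  exact hf

theorem isClosed_MulAlg : IsClosed (MulAlg ι : Set (HH ι →L[ℂ] HH ι)) := by
  have h : (MulAlg ι : Set (HH ι →L[ℂ] HH ι)) = {T | ∀ (x : HH ι) (i : ι), T x i = dg T i * x i} := by
    ext T
    exact ⟨fun hT => isMul_dg hT, fun hT => ⟨_, hT⟩⟩
  rw [h]
  simp only [Set.ofPred_forall]
  have hc : ∀ (x : HH ι) (i : ι), Continuous fun T : HH ι →L[ℂ] HH ι => T x i := by
    intro x i
    have h1 : (fun T : HH ι →L[ℂ] HH ι => T x i) =
        fun T : HH ι →L[ℂ] HH ι => inner ℂ (HH.δ i) (T x) := by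
      funext T
      rw [HH.inner_δ]
    rw [h1]
    exact (innerSL ℂ (HH.δ i)).continuous.comp (ContinuousLinearMap.apply ℂ (HH ι) x).continuous
  refine isClosed_iInter fun x => isClosed_iInter fun i => ?_
  exact isClosed_eq (hc x i) ((hc _ i).mul continuous_const)

end MulAlg

/-! ### the copy of the injective envelope -/

theorem exists_jop (T : HH ℕ →L[ℂ] HH ℕ) : ∃ S : HH J →L[ℂ] HH J, IsMul S (ex (dg T)) := by
  obtain ⟨S, hS, -⟩ := exists_isMul (ex (dg T)) ‖T‖ (norm_ex_le (dg_le T))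
  exact ⟨S, hS⟩

/-- the map `j` -/
def jm : MulAlg ℕ →ₗ[ℂ] (HH J →L[ℂ] HH J) where
  toFun T := (exists_jop (T : HH ℕ →L[ℂ] HH ℕ)).choose
  map_add' S T := by
    refine IsMul.unique (exists_jop _).choose_spec ?_
    have h : ex (dg ((S + T : MulAlg ℕ) : HH ℕ →L[ℂ] HH ℕ)) =
        ex (dg (S : HH ℕ →L[ℂ] HH ℕ)) + ex (dg (T : HH ℕ →L[ℂ] HH ℕ)) := by
      rw [← ex_add (dg_le _) (dg_le _), ← dg_add]
      rfl
    rw [h]
    exact (exists_jop _).choose_spec.add (exists_jop _).choose_spec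
  map_smul' c T := by
    refine IsMul.unique (exists_jop _).choose_spec ?_
    have h : ex (dg ((c • T : MulAlg ℕ) : HH ℕ →L[ℂ] HH ℕ)) =
        c • ex (dg (T : HH ℕ →L[ℂ] HH ℕ)) := by
      rw [← ex_smul (dg_le _), ← dg_smul]
      rfl
    rw [h]
    exact (exists_jop _).choose_spec.smul c

theorem jm_spec (T : MulAlg ℕ) : IsMul (jm T) (ex (dg (T : HH ℕ →L[ℂ] HH ℕ))) :=
  (exists_jop _).choose_spec

/-- a limit of scalar inequalities -/
theorem scal_lim {m n : ℕ} (F : Fin m → Fin n → ℕ → ℂ) (C : ℝ) (hF : ∀ i j s, ‖F i j s‖ ≤ C)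
    {c : ℝ} (h : ∀ (s : ℕ) (z : Fin n → ℂ),
      ∑ i, ‖∑ j, F i j s * z j‖ ^ 2 ≤ c ^ 2 * ∑ j, ‖z j‖ ^ 2) (s : J) (z : Fin n → ℂ) :
    ∑ i, ‖∑ j, ex (F i j) s * z j‖ ^ 2 ≤ c ^ 2 * ∑ j, ‖z j‖ ^ 2 := by
  rcases s with t | b
  · exact h t z
  · refine le_of_tendsto (f := fun t => ∑ i, ‖∑ j, F i j (2 * t + b.toNat) * z j‖ ^ 2)
      (tendsto_finsetSum _ fun i _ => ((tendsto_finsetSum _ fun j _ =>
        (ex_tendsto (hF i j) b).mul_const (z j)).norm).pow 2)
      (Eventually.of_forall fun t => h _ z)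

theorem jm_CI : CI' (fun x : MulAlg ℕ => (x : HH ℕ →L[ℂ] HH ℕ)) (fun x : MulAlg ℕ => jm x) := by
  intro k X
  have h1 : ∀ i j, IsMul ((X.map fun x : MulAlg ℕ => jm x) i j)
      (ex (dg (X i j : HH ℕ →L[ℂ] HH ℕ))) := fun i j => jm_spec _
  have h2 : ∀ i j, IsMul ((X.map fun x : MulAlg ℕ => (x : HH ℕ →L[ℂ] HH ℕ)) i j)
      (dg (X i j : HH ℕ →L[ℂ] HH ℕ)) := fun i j => isMul_dg (X i j).2
  refine le_antisymm ?_ ?_
  · rw [isMul_matOp_le _ _ h1 (norm_nonneg _)]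
    have h3 := (isMul_matOp_le _ _ h2 (norm_nonneg _)).mp le_rfl
    refine fun s z => scal_lim (fun i j => dg (X i j : HH ℕ →L[ℂ] HH ℕ))
      (∑ i, ∑ j, ‖(X i j : HH ℕ →L[ℂ] HH ℕ)‖) (fun i j s => ?_) h3 s z
    refine (dg_le _ s).trans ?_
    refine (Finset.single_le_sum (f := fun j => ‖(X i j : HH ℕ →L[ℂ] HH ℕ)‖)
      (fun j _ => norm_nonneg _) (Finset.mem_univ j)).trans ?_
    exact Finset.single_le_sum (f := fun i => ∑ j, ‖(X i j : HH ℕ →L[ℂ] HH ℕ)‖)
      (fun j _ => Finset.sum_nonneg fun j _ => norm_nonneg _) (Finset.mem_univ i)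
  · rw [isMul_matOp_le _ _ h2 (norm_nonneg _)]
    have h3 := (isMul_matOp_le _ _ h1 (norm_nonneg _)).mp le_rfl
    exact fun s z => h3 (Sum.inl s) z

/-! ### the algebra `A` -/

/-- The functions on `J` which converge along the sequence, to the common value at the two extra
points. -/
def Cv (F : J → ℂ) : Prop :=
  Tendsto (fun n => F (Sum.inl n)) atTop (𝓝 (F (Sum.inr false))) ∧
    F (Sum.inr true) = F (Sum.inr false)

/-- The algebra `A`: convergent sequences, the limit acting on the two extra coordinates. -/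
def AA : StarSubalgebra ℂ (HH J →L[ℂ] HH J) where
  carrier := {T | ∃ F, IsMul T F ∧ Cv F}
  mul_mem' := by
    rintro S T ⟨f, hf, hf', hf''⟩ ⟨g, hg, hg', hg''⟩
    exact ⟨_, hf.mul hg, hf'.mul hg', by rw [Pi.mul_apply, Pi.mul_apply, hf'', hg'']⟩
  add_mem' := by
    rintro S T ⟨f, hf, hf', hf''⟩ ⟨g, hg, hg', hg''⟩
    exact ⟨_, hf.add hg, hf'.add hg', by rw [Pi.add_apply, Pi.add_apply, hf'', hg'']⟩
  algebraMap_mem' c := ⟨_, IsMul.const c, tendsto_const_nhds, rfl⟩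
  star_mem' := by
    rintro S ⟨f, hf, hf', hf''⟩
    exact ⟨_, hf.star, (Complex.continuous_conj.tendsto _).comp hf', by
      simp only [hf'']⟩

theorem mem_AA {T : HH J →L[ℂ] HH J} : T ∈ AA ↔ ∃ F, IsMul T F ∧ Cv F := Iff.rfl

theorem AA_spec {T : HH J →L[ℂ] HH J} (hT : T ∈ AA) : IsMul T (dg T) ∧ Cv (dg T) := by
  obtain ⟨F, hF, hc⟩ := hT
  rw [hF.dg_eq]
  exact ⟨hF, hc⟩

theorem isClosed_AA : IsClosed (AA : Set (HH J →L[ℂ] HH J)) := by
  rw [← isSeqClosed_iff_isClosed]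
  intro T S hT hTS
  have h1 : S ∈ MulAlg J := by
    refine isClosed_MulAlg.isSeqClosed (fun n => ?_) hTS
    exact ⟨_, (AA_spec (hT n)).1⟩
  have h2 := isMul_dg h1
  have h3 : ∀ n s, ‖dg (T n) s - dg S s‖ ≤ ‖T n - S‖ := fun n s => by
    have : dg (T n) s - dg S s = dg (T n - S) s := rfl
    rw [this]
    exact dg_le _ s
  have h4 : Tendsto (fun n => ‖T n - S‖) atTop (𝓝 0) := tendsto_iff_norm_sub_tendsto_zero.mp hTS
  have h5 : ∀ s, Tendsto (fun n => dg (T n) s) atTop (𝓝 (dg S s)) := fun s => by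
    rw [tendsto_iff_norm_sub_tendsto_zero]
    exact squeeze_zero (fun _ => norm_nonneg _) (fun n => h3 n s) h4
  refine ⟨_, h2, ?_, ?_⟩
  · rw [Metric.tendsto_atTop]
    intro ε hε
    obtain ⟨n, hn⟩ := ((tendsto_order.mp h4).2 (ε / 3) (by positivity)).exists
    obtain ⟨N, hN⟩ := (Metric.tendsto_atTop.mp (AA_spec (hT n)).2.1) (ε / 3) (by positivity)
    refine ⟨N, fun m hm => ?_⟩
    have e1 := hN m hm
    have e2 := h3 n (Sum.inl m)
    have e3 := h3 n (Sum.inr false)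
    rw [dist_eq_norm] at e1 ⊢
    have e4 : dg S (Sum.inl m) - dg S (Sum.inr false) =
        -(dg (T n) (Sum.inl m) - dg S (Sum.inl m)) +
          (dg (T n) (Sum.inl m) - dg (T n) (Sum.inr false)) +
          (dg (T n) (Sum.inr false) - dg S (Sum.inr false)) := by ring
    rw [e4]
    refine (norm_add_le _ _).trans_lt ?_
    have e5 := norm_add_le (-(dg (T n) (Sum.inl m) - dg S (Sum.inl m)))
      (dg (T n) (Sum.inl m) - dg (T n) (Sum.inr false))
    rw [norm_neg] at e5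
    linarith
  · exact tendsto_nhds_unique (h5 (Sum.inr true))
      ((h5 (Sum.inr false)).congr fun n => (AA_spec (hT n)).2.2.symm)

/-! ### the embedding of `A` into the multiplication operators -/

theorem exists_iop (T : HH J →L[ℂ] HH J) :
    ∃ S : HH ℕ →L[ℂ] HH ℕ, IsMul S fun n => dg T (Sum.inl n) := by
  obtain ⟨S, hS, -⟩ := exists_isMul (fun n => dg T (Sum.inl n)) ‖T‖ fun n => dg_le T _
  exact ⟨S, hS⟩

/-- the restriction to the sequence part -/
def io (T : HH J →L[ℂ] HH J) : HH ℕ →L[ℂ] HH ℕ := (exists_iop T).choose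

theorem io_spec (T : HH J →L[ℂ] HH J) : IsMul (io T) fun n => dg T (Sum.inl n) :=
  (exists_iop T).choose_spec

/-- the embedding -/
def im : AA →⋆ₐ[ℂ] MulAlg ℕ where
  toFun T := ⟨io T, ⟨_, io_spec _⟩⟩
  map_one' := by
    refine Subtype.ext (IsMul.unique (io_spec _) ?_)
    have h : (fun n => dg ((1 : AA) : HH J →L[ℂ] HH J) (Sum.inl n)) = 1 := by
      have h1 : dg ((1 : AA) : HH J →L[ℂ] HH J) = 1 := (IsMul.one (ι := J)).dg_eq
      rw [h1]
      rfl
    rw [h]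
    exact IsMul.one
  map_mul' S T := by
    refine Subtype.ext (IsMul.unique (io_spec _) ?_)
    have h : (fun n => dg ((S * T : AA) : HH J →L[ℂ] HH J) (Sum.inl n)) =
        (fun n => dg (S : HH J →L[ℂ] HH J) (Sum.inl n)) *
          fun n => dg (T : HH J →L[ℂ] HH J) (Sum.inl n) := by
      have h1 : dg ((S * T : AA) : HH J →L[ℂ] HH J) =
          dg (S : HH J →L[ℂ] HH J) * dg (T : HH J →L[ℂ] HH J) :=
        ((AA_spec S.2).1.mul (AA_spec T.2).1).dg_eq
      rw [h1]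
      rfl
    rw [h]
    exact (io_spec _).mul (io_spec _)
  map_zero' := by
    refine Subtype.ext (IsMul.unique (io_spec _) ?_)
    have h : (fun n => dg ((0 : AA) : HH J →L[ℂ] HH J) (Sum.inl n)) = 0 := by
      have h1 : dg ((0 : AA) : HH J →L[ℂ] HH J) = 0 := (IsMul.zero (ι := J)).dg_eq
      rw [h1]
      rfl
    rw [h]
    exact IsMul.zero
  map_add' S T := by
    refine Subtype.ext (IsMul.unique (io_spec _) ?_)
    exact (io_spec _).add (io_spec _)
  commutes' c := by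
    refine Subtype.ext (IsMul.unique (io_spec _) ?_)
    have h : (fun n => dg ((algebraMap ℂ AA c : AA) : HH J →L[ℂ] HH J) (Sum.inl n)) =
        fun _ => c := by
      have h1 : dg ((algebraMap ℂ AA c : AA) : HH J →L[ℂ] HH J) = fun _ => c :=
        (IsMul.const (ι := J) c).dg_eq
      rw [h1]
    rw [h]
    exact IsMul.const c
  map_star' T := by
    refine Subtype.ext (IsMul.unique (io_spec _) ?_)
    have h : (fun n => dg ((star T : AA) : HH J →L[ℂ] HH J) (Sum.inl n)) =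
        fun n => (starRingEnd ℂ) (dg (T : HH J →L[ℂ] HH J) (Sum.inl n)) := by
      have h1 : dg ((star T : AA) : HH J →L[ℂ] HH J) =
          fun s => (starRingEnd ℂ) (dg (T : HH J →L[ℂ] HH J) s) := ((AA_spec T.2).1.star).dg_eq
      rw [h1]
    rw [h]
    exact (io_spec _).star

theorem im_spec (T : AA) : IsMul (im T : HH ℕ →L[ℂ] HH ℕ) fun n =>
    dg (T : HH J →L[ℂ] HH J) (Sum.inl n) := io_spec _

theorem ex_of_Cv {F : J → ℂ} (h : Cv F) : ex (fun n => F (Sum.inl n)) = F := by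
  funext s
  rcases s with n | b
  · rfl
  · have h1 : Tendsto (fun n => F (Sum.inl (2 * n + b.toNat))) (U : Filter ℕ)
        (𝓝 (F (Sum.inr false))) := by
      refine (h.1.comp (tendsto_atTop_mono (fun n => ?_) tendsto_id)).mono_left U_le
      show n ≤ 2 * n + b.toNat
      omega
    rw [ex_inr (f := fun n => F (Sum.inl n)) h1]
    cases b
    · rfl
    · exact h.2.symm

theorem jm_im (T : AA) : jm (im T) = (T : HH J →L[ℂ] HH J) := by
  refine IsMul.unique (jm_spec _) ?_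
  rw [(im_spec T).dg_eq, ex_of_Cv (AA_spec T.2).2]
  exact (AA_spec T.2).1

theorem im_injective : Function.Injective im := by
  intro S T h
  apply Subtype.ext
  rw [← jm_im S, ← jm_im T, h]

end

end Q89.NM
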