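import Pool.Agent.Q89.NM.Ex

/-! Injectivity and rigidity of the algebra of bounded sequences. -/

set_option autoImplicit false

namespace Q89.NM

open Filter Topology

noncomputable section

universe u

/-- The scalar inequality for a contractive functional. -/
theorem scal_functional {L : Type u} [NormedAddCommGroup L] [InnerProductSpace ℂ L]
    {k : ℕ} (X : Matrix (Fin k) (Fin k) (L →L[ℂ] L)) (g : (L →L[ℂ] L) →L[ℂ] ℂ) (hg : ‖g‖ ≤ 1)
    (z : Fin k → ℂ) :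
    ∑ i, ‖∑ j, g (X i j) * z j‖ ^ 2 ≤ ‖matOp X‖ ^ 2 * ∑ j, ‖z j‖ ^ 2 := by
  set b : Fin k → L →L[ℂ] L := fun i => ∑ j, z j • X i j with hb
  set y : Fin k → ℂ := fun i => ∑ j, g (X i j) * z j with hy
  have hyb : ∀ i, y i = g (b i) := by
    intro i
    simp only [hy, hb, map_sum, map_smul, smul_eq_mul]
    exact Finset.sum_congr rfl fun j _ => mul_comm _ _
  set N : ℝ := ∑ i, ‖y i‖ ^ 2 with hN
  set Z : ℝ := ∑ j, ‖z j‖ ^ 2 with hZ
  have hN0 : 0 ≤ N := Finset.sum_nonneg fun i _ => by positivity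
  have hZ0 : 0 ≤ Z := Finset.sum_nonneg fun i _ => by positivity
  -- the norm of the combination
  have h1 : ‖∑ i, (starRingEnd ℂ) (y i) • b i‖ ≤ √N * (‖matOp X‖ * √Z) := by
    refine ContinuousLinearMap.opNorm_le_bound _ (by positivity) fun ξ => ?_
    have e1 : (∑ i, (starRingEnd ℂ) (y i) • b i) ξ = ∑ i, (starRingEnd ℂ) (y i) • b i ξ := by
      rw [_root_.sum_apply]
      rfl
    rw [e1]
    have e2 : ‖∑ i, (starRingEnd ℂ) (y i) • b i ξ‖ ≤ ∑ i, ‖y i‖ * ‖b i ξ‖ := by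
      refine (norm_sum_le _ _).trans_eq (Finset.sum_congr rfl fun i _ => ?_)
      rw [norm_smul, RCLike.norm_conj]
    have e3 : ∑ i, ‖y i‖ * ‖b i ξ‖ ≤ √N * √(∑ i, ‖b i ξ‖ ^ 2) := by
      have := Finset.sum_mul_sq_le_sq_mul_sq Finset.univ (fun i => ‖y i‖) (fun i => ‖b i ξ‖)
      rw [← Real.sqrt_mul hN0]
      exact Real.le_sqrt_of_sq_le this
    have e4 : ∑ i, ‖b i ξ‖ ^ 2 ≤ (‖matOp X‖ * √Z * ‖ξ‖) ^ 2 := by
      have := matOp_bound X fun j => z j • ξ
      have e5 : ∀ i, ∑ j, X i j (z j • ξ) = b i ξ := by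
        intro i
        simp only [hb, _root_.sum_apply, map_smul]
        rfl
      simp only [e5, norm_smul, mul_pow] at this
      refine this.trans_eq ?_
      rw [← Finset.sum_mul, mul_pow, mul_pow, Real.sq_sqrt hZ0]
      ring
    have e6 : √(∑ i, ‖b i ξ‖ ^ 2) ≤ ‖matOp X‖ * √Z * ‖ξ‖ := by
      rw [Real.sqrt_le_left (by positivity)]
      exact e4
    calc _ ≤ √N * √(∑ i, ‖b i ξ‖ ^ 2) := e2.trans e3
      _ ≤ √N * (‖matOp X‖ * √Z * ‖ξ‖) := by gcongr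
      _ = _ := by ring
  have h2 : N ≤ √N * (‖matOp X‖ * √Z) := by
    have e1 : ((N : ℝ) : ℂ) = g (∑ i, (starRingEnd ℂ) (y i) • b i) := by
      rw [map_sum, hN]
      push_cast
      refine Finset.sum_congr rfl fun i _ => ?_
      rw [map_smul, smul_eq_mul, ← hyb, mul_comm, Complex.mul_conj, Complex.normSq_eq_norm_sq]
      push_cast
      rfl
    have e2 : N = ‖((N : ℝ) : ℂ)‖ := by
      rw [Complex.norm_real, Real.norm_of_nonneg hN0]
    rw [e2, e1]
    have e3 : ‖g (∑ i, (starRingEnd ℂ) (y i) • b i)‖ ≤ 1 * ‖∑ i, (starRingEnd ℂ) (y i) • b i‖ :=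
      (g.le_opNorm _).trans (by gcongr)
    rw [one_mul] at e3
    refine e3.trans (h1.trans_eq ?_)
    rw [← e1, ← e2]
  have h3 : √N ≤ ‖matOp X‖ * √Z := by
    rcases hN0.eq_or_lt with h | h
    · rw [← h, Real.sqrt_zero]
      positivity
    · have h4 : 0 < √N := Real.sqrt_pos.mpr h
      have h5 : √N * √N ≤ √N * (‖matOp X‖ * √Z) := by
        rw [Real.mul_self_sqrt hN0]
        exact h2
      exact le_of_mul_le_mul_left h5 h4
  calc N = √N ^ 2 := (Real.sq_sqrt hN0).symm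
    _ ≤ (‖matOp X‖ * √Z) ^ 2 := by gcongr
    _ = _ := by rw [mul_pow, Real.sq_sqrt hZ0]

theorem isInjective_aux {L : Type u} [NormedAddCommGroup L] [InnerProductSpace ℂ L]
    [CompleteSpace L] (E : Submodule ℂ (L →L[ℂ] L)) (w : E →ₗ[ℂ] MulAlg ℕ)
    (hw : CC' (fun x : E => (x : L →L[ℂ] L)) (fun x : E => (w x : HH ℕ →L[ℂ] HH ℕ))) :
    ∃ w' : (L →L[ℂ] L) →ₗ[ℂ] MulAlg ℕ,
      CC' (fun x : L →L[ℂ] L => x) (fun x : L →L[ℂ] L => (w' x : HH ℕ →L[ℂ] HH ℕ)) ∧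
      ∀ x : E, w' x = w x := by
  -- `w` is contractive
  have hw1 : ∀ x : E, ‖(w x : HH ℕ →L[ℂ] HH ℕ)‖ ≤ ‖(x : L →L[ℂ] L)‖ := by
    intro x
    have h := hw 1 (Matrix.of fun _ _ => x)
    have h1 : ‖matOp ((Matrix.of fun (_ _ : Fin 1) => x).map fun x : E => (x : L →L[ℂ] L))‖ ≤
        ‖(x : L →L[ℂ] L)‖ := by
      rw [norm_matOp_le_iff _ (norm_nonneg _)]
      intro ξ
      simp only [Finset.univ_unique, Finset.sum_singleton, Matrix.map_apply, Matrix.of_apply]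
      rw [← mul_pow]
      gcongr
      exact (x : L →L[ℂ] L).le_opNorm _
    refine ContinuousLinearMap.opNorm_le_bound _ (norm_nonneg _) fun ξ => ?_
    have h2 := matOp_bound ((Matrix.of fun (_ _ : Fin 1) => x).map
      fun x : E => (w x : HH ℕ →L[ℂ] HH ℕ)) fun _ => ξ
    simp only [Finset.univ_unique, Finset.sum_singleton, Matrix.map_apply, Matrix.of_apply] at h2
    rw [← mul_pow] at h2
    refine (le_of_sq_le_sq h2 (by positivity)).trans ?_
    gcongr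
    exact h.trans h1
  -- the coordinate functionals
  have hf : ∀ n : ℕ, ∃ g : (L →L[ℂ] L) →L[ℂ] ℂ, ‖g‖ ≤ 1 ∧
      ∀ x : E, g x = dg (w x : HH ℕ →L[ℂ] HH ℕ) n := by
    intro n
    let f : E →ₗ[ℂ] ℂ :=
      { toFun := fun x => dg (w x : HH ℕ →L[ℂ] HH ℕ) n
        map_add' := fun x y => by
          rw [map_add]
          rfl
        map_smul' := fun c x => by
          rw [map_smul]
          rfl }
    have hfb : ∀ x : E, ‖f x‖ ≤ 1 * ‖x‖ := fun x => by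
      rw [one_mul]
      exact (dg_le _ n).trans (hw1 x)
    have hfn : ‖f.mkContinuous 1 hfb‖ ≤ 1 := f.mkContinuous_norm_le zero_le_one hfb
    obtain ⟨g, hg1, hg2⟩ := exists_extension_norm_eq E (f.mkContinuous 1 hfb)
    exact ⟨g, hg2.trans_le hfn, fun x => hg1 x⟩
  choose g hg1 hg2 using hf
  have hb : ∀ (x : L →L[ℂ] L) n, ‖g n x‖ ≤ ‖x‖ := fun x n => by
    refine ((g n).le_opNorm x).trans ?_
    exact mul_le_of_le_one_left (norm_nonneg _) (hg1 n)
  have hex : ∀ x : L →L[ℂ] L, ∃ S : HH ℕ →L[ℂ] HH ℕ, IsMul S fun n => g n x := fun x => by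
    obtain ⟨S, hS, -⟩ := exists_isMul (fun n => g n x) ‖x‖ (hb x)
    exact ⟨S, hS⟩
  choose S hS using hex
  refine ⟨{ toFun := fun x => ⟨S x, _, hS x⟩
            map_add' := fun x y => ?_
            map_smul' := fun c x => ?_ }, ?_, ?_⟩
  · refine Subtype.ext (IsMul.unique (hS _) ?_)
    have h : (fun n => g n (x + y)) = (fun n => g n x) + fun n => g n y := by
      funext n
      exact map_add _ _ _
    rw [h]
    exact (hS x).add (hS y)
  · refine Subtype.ext (IsMul.unique (hS _) ?_)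
    have h : (fun n => g n (c • x)) = c • fun n => g n x := by
      funext n
      exact map_smul _ _ _
    rw [h]
    exact (hS x).smul c
  · intro k X
    have h1 : ∀ i j, IsMul ((X.map S) i j) (fun n => g n (X i j)) := fun i j => hS _
    show ‖matOp (X.map S)‖ ≤ ‖matOp (X.map fun x => x)‖
    have h2 : (X.map fun x : L →L[ℂ] L => x) = X := Matrix.map_id' X
    rw [h2, isMul_matOp_le _ _ h1 (norm_nonneg _)]
    exact fun n z => scal_functional X (g n) (hg1 n) z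
  · intro x
    refine Subtype.ext (IsMul.unique (hS _) ?_)
    have h : (fun n => g n (x : L →L[ℂ] L)) = dg (w x : HH ℕ →L[ℂ] HH ℕ) := by
      funext n
      exact hg2 n x
    rw [h]
    exact isMul_dg (w x).2

/-- every finitely supported sequence is in `A` -/
theorem exists_AA (n : ℕ) (a : ℂ) : ∃ T : AA, IsMul (im T : HH ℕ →L[ℂ] HH ℕ)
    (Pi.single n a) := by
  obtain ⟨T, hT, -⟩ := exists_isMul (Pi.single (Sum.inl n) a : J → ℂ) ‖a‖ (fun s => by
    by_cases h : s = Sum.inl n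
    · rw [h, Pi.single_eq_same]
    · rw [Pi.single_eq_of_ne h, norm_zero]
      exact norm_nonneg _)
  refine ⟨⟨T, _, hT, ?_, ?_⟩, ?_⟩
  · rw [Pi.single_eq_of_ne (by simp)]
    refine tendsto_const_nhds.congr' ?_
    filter_upwards [eventually_gt_atTop n] with m hm
    rw [Pi.single_eq_of_ne (by simpa using hm.ne')]
  · rw [Pi.single_eq_of_ne (by simp), Pi.single_eq_of_ne (by simp)]
  · have h := im_spec ⟨T, _, hT, by
      rw [Pi.single_eq_of_ne (by simp)]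
      refine tendsto_const_nhds.congr' ?_
      filter_upwards [eventually_gt_atTop n] with m hm
      rw [Pi.single_eq_of_ne (by simpa using hm.ne')], by
      rw [Pi.single_eq_of_ne (by simp), Pi.single_eq_of_ne (by simp)]⟩
    have h1 : (fun m => dg T (Sum.inl m)) = Pi.single n a := by
      rw [hT.dg_eq]
      funext m
      by_cases h : m = n
      · rw [h, Pi.single_eq_same, Pi.single_eq_same]
      · rw [Pi.single_eq_of_ne h, Pi.single_eq_of_ne (by simpa using h)]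
    rw [← h1]
    exact h

theorem rigid_MulAlg (v : MulAlg ℕ →ₗ[ℂ] MulAlg ℕ)
    (hv : CC' (fun x : MulAlg ℕ => (x : HH ℕ →L[ℂ] HH ℕ)) (fun x => (v x : HH ℕ →L[ℂ] HH ℕ)))
    (hA : ∀ a : AA, v (im a) = im a) (x : MulAlg ℕ) : v x = x := by
  -- a function vanishing at `n` is sent to a function vanishing at `n`
  have key : ∀ (n : ℕ) (x : MulAlg ℕ), dg (x : HH ℕ →L[ℂ] HH ℕ) n = 0 →
      dg (v x : HH ℕ →L[ℂ] HH ℕ) n = 0 := by
    intro n x hx
    obtain ⟨e, he⟩ := exists_AA n 1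
    set w := dg (v x : HH ℕ →L[ℂ] HH ℕ) n with hw
    have h1 : ∀ t : ℂ, ‖t‖ * ‖(x : HH ℕ →L[ℂ] HH ℕ)‖ ≤ 1 → ‖1 + t * w‖ ≤ 1 := by
      intro t ht
      have h2 := hv 1 (Matrix.of fun _ _ => im e + t • x)
      have h3 : ‖matOp ((Matrix.of fun (_ _ : Fin 1) => im e + t • x).map
          fun x : MulAlg ℕ => (x : HH ℕ →L[ℂ] HH ℕ))‖ ≤ 1 := by
        have e1 : ∀ i j, IsMul (((Matrix.of fun (_ _ : Fin 1) => im e + t • x).map
          fun x : MulAlg ℕ => (x : HH ℕ →L[ℂ] HH ℕ)) i j)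
            (Pi.single n 1 + t • dg (x : HH ℕ →L[ℂ] HH ℕ)) :=
          fun i j => he.add ((isMul_dg x.2).smul t)
        rw [isMul_matOp_le _ _ e1 zero_le_one]
        intro s z
        simp only [Finset.univ_unique, Finset.sum_singleton]
        rw [norm_mul, mul_pow]
        gcongr
        rw [Pi.add_apply, Pi.smul_apply]
        by_cases hs : s = n
        · rw [hs, Pi.single_eq_same, hx, smul_zero, add_zero, norm_one]
        · rw [Pi.single_eq_of_ne hs, zero_add, norm_smul]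
          refine (mul_le_mul_of_nonneg_left (dg_le _ s) (norm_nonneg t)).trans ht
      have h4 : ∀ i j, IsMul (((Matrix.of fun (_ _ : Fin 1) => im e + t • x).map
          fun x : MulAlg ℕ => (v x : HH ℕ →L[ℂ] HH ℕ)) i j)
            (Pi.single n 1 + t • dg (v x : HH ℕ →L[ℂ] HH ℕ)) := by
        intro i j
        have e1 : v (im e + t • x) = im e + t • v x := by
          rw [map_add, map_smul, hA]
        simp only [Matrix.map_apply, Matrix.of_apply, e1]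
        exact he.add ((isMul_dg (v x).2).smul t)
      have h5 := (isMul_matOp_le _ _ h4 zero_le_one).mp (h2.trans h3) n fun _ => 1
      simp only [Finset.univ_unique, Finset.sum_singleton, mul_one, one_pow, norm_one,
        Pi.add_apply, Pi.single_eq_same, Pi.smul_apply, smul_eq_mul] at h5
      exact le_of_sq_le_sq (by rw [one_pow]; exact h5) zero_le_one
    by_contra hne
    have hpos : 0 < ‖w‖ ^ 2 := by positivity
    obtain ⟨r, hr0, hr1⟩ : ∃ r : ℝ, 0 < r ∧ r * ‖w‖ * ‖(x : HH ℕ →L[ℂ] HH ℕ)‖ ≤ 1 := by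
      set M := ‖w‖ * ‖(x : HH ℕ →L[ℂ] HH ℕ)‖ with hM
      have hM0 : 0 ≤ M := by positivity
      refine ⟨(M + 1)⁻¹, by positivity, ?_⟩
      rw [mul_assoc, ← hM, inv_mul_le_iff₀ (by positivity)]
      linarith
    have h6 := h1 ((r : ℂ) * (starRingEnd ℂ) w) (by
      rw [norm_mul, RCLike.norm_conj, Complex.norm_real, Real.norm_of_nonneg hr0.le]
      exact hr1)
    have h7 : (1 : ℂ) + (r : ℂ) * (starRingEnd ℂ) w * w = ((1 + r * ‖w‖ ^ 2 : ℝ) : ℂ) := by
      rw [mul_assoc, mul_comm ((starRingEnd ℂ) w), Complex.mul_conj, Complex.normSq_eq_norm_sq]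
      push_cast
      rfl
    rw [h7, Complex.norm_real, Real.norm_of_nonneg (by positivity)] at h6
    have : 0 < r * ‖w‖ ^ 2 := by positivity
    linarith
  refine Subtype.ext (IsMul.unique (isMul_dg (v x).2) ?_)
  have h : dg (v x : HH ℕ →L[ℂ] HH ℕ) = dg (x : HH ℕ →L[ℂ] HH ℕ) := by
    funext n
    obtain ⟨e, he⟩ := exists_AA n (dg (x : HH ℕ →L[ℂ] HH ℕ) n)
    have h1 := key n (x - im e) (by
      have : dg ((x - im e : MulAlg ℕ) : HH ℕ →L[ℂ] HH ℕ) n =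
        dg (x : HH ℕ →L[ℂ] HH ℕ) n - dg (im e : HH ℕ →L[ℂ] HH ℕ) n := rfl
      rw [this, he.dg_eq, Pi.single_eq_same, sub_self])
    rw [map_sub, hA] at h1
    have h2 : dg ((v x - im e : MulAlg ℕ) : HH ℕ →L[ℂ] HH ℕ) n =
        dg (v x : HH ℕ →L[ℂ] HH ℕ) n - dg (im e : HH ℕ →L[ℂ] HH ℕ) n := rfl
    rw [h2, he.dg_eq, Pi.single_eq_same, sub_eq_zero] at h1
    exact h1
  rw [h]
  exact isMul_dg x.2

theorem isInjective_MulAlg : IsInjective.{u} (MulAlg ℕ : Set (HH ℕ →L[ℂ] HH ℕ)) := by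
  intro L _ _ _
  intro E w hlin hmap hcc
  rw [CC_iff] at hcc
  let w1 : E →ₗ[ℂ] MulAlg ℕ :=
    { toFun := fun x => ⟨w x, hmap x.2⟩
      map_add' := fun x y => Subtype.ext (hlin.1 _ x.2 _ y.2)
      map_smul' := fun c x => Subtype.ext (hlin.2 c _ x.2) }
  obtain ⟨w', h1, h2⟩ := isInjective_aux E w1 hcc
  refine ⟨fun x => (w' x : HH ℕ →L[ℂ] HH ℕ), ⟨fun x _ y _ => ?_, fun c x _ => ?_⟩,
    fun x _ => (w' x).2, ?_, fun x hx => ?_⟩
  · show ((w' (x + y) : MulAlg ℕ) : HH ℕ →L[ℂ] HH ℕ) = _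
    rw [map_add]
    rfl
  · show ((w' (c • x) : MulAlg ℕ) : HH ℕ →L[ℂ] HH ℕ) = _
    rw [map_smul]
    rfl
  · rw [CC_iff]
    intro k X
    exact h1 k (X.map fun x => (x : L →L[ℂ] L))
  · show ((w' x : MulAlg ℕ) : HH ℕ →L[ℂ] HH ℕ) = w x
    rw [show w' x = w' ((⟨x, hx⟩ : E) : L →L[ℂ] L) from rfl, h2]
    rfl

theorem isCStar_MulAlg : IsCStar (MulAlg ℕ : Set (HH ℕ →L[ℂ] HH ℕ)) where
  closed := isClosed_MulAlg
  zero := (MulAlg ℕ).zero_mem
  add _ ha _ hb := (MulAlg ℕ).add_mem ha hb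
  smul c _ ha := (MulAlg ℕ).smul_mem ha c
  mul _ ha _ hb := (MulAlg ℕ).mul_mem ha hb
  star _ ha := (MulAlg ℕ).star_mem' ha

theorem isCStar_AA : IsCStar (AA : Set (HH J →L[ℂ] HH J)) where
  closed := isClosed_AA
  zero := AA.zero_mem
  add _ ha _ hb := AA.add_mem ha hb
  smul c _ ha := AA.smul_mem ha c
  mul _ ha _ hb := AA.mul_mem ha hb
  star _ ha := AA.star_mem' ha

theorem im_val (a : AA) : (im a : HH ℕ →L[ℂ] HH ℕ) = io (a : HH J →L[ℂ] HH J) := rfl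

theorem io_add {a b : HH J →L[ℂ] HH J} (ha : a ∈ AA) (hb : b ∈ AA) :
    io (a + b) = io a + io b := by
  have h : im (⟨a, ha⟩ + ⟨b, hb⟩) = im ⟨a, ha⟩ + im ⟨b, hb⟩ := map_add im _ _
  exact congrArg Subtype.val h

theorem io_smul (c : ℂ) {a : HH J →L[ℂ] HH J} (ha : a ∈ AA) : io (c • a) = c • io a := by
  have h : im (c • (⟨a, ha⟩ : AA)) = c • im ⟨a, ha⟩ := map_smul im _ _
  exact congrArg Subtype.val h

theorem io_mul {a b : HH J →L[ℂ] HH J} (ha : a ∈ AA) (hb : b ∈ AA) :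
    io (a * b) = io a * io b := by
  have h : im (⟨a, ha⟩ * ⟨b, hb⟩) = im ⟨a, ha⟩ * im ⟨b, hb⟩ := map_mul im _ _
  exact congrArg Subtype.val h

theorem io_star {a : HH J →L[ℂ] HH J} (ha : a ∈ AA) : io (star a) = star (io a) := by
  have h : im (star (⟨a, ha⟩ : AA)) = star (im ⟨a, ha⟩) := map_star im _
  exact congrArg Subtype.val h

theorem io_inj {a b : HH J →L[ℂ] HH J} (ha : a ∈ AA) (hb : b ∈ AA) (h : io a = io b) :
    a = b := by
  have h1 : im ⟨a, ha⟩ = im ⟨b, hb⟩ := Subtype.ext h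
  exact congrArg Subtype.val (im_injective h1)

theorem isEmbedding_io : IsEmbedding (AA : Set (HH J →L[ℂ] HH J))
    (MulAlg ℕ : Set (HH ℕ →L[ℂ] HH ℕ)) io where
  maps a _ := ⟨_, io_spec a⟩
  linear := ⟨fun _ ha _ hb => io_add ha hb, fun c _ ha => io_smul c ha⟩
  mul _ ha _ hb := io_mul ha hb
  star _ ha := io_star ha
  inj _ ha _ hb h := io_inj ha hb h

theorem rigid_io : Rigid (AA : Set (HH J →L[ℂ] HH J)) (MulAlg ℕ : Set (HH ℕ →L[ℂ] HH ℕ)) io := by
  intro v hlin hmap hcc hA x hx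
  rw [CC_iff] at hcc
  let v1 : MulAlg ℕ →ₗ[ℂ] MulAlg ℕ :=
    { toFun := fun x => ⟨v x, hmap x.2⟩
      map_add' := fun x y => Subtype.ext (hlin.1 _ x.2 _ y.2)
      map_smul' := fun c x => Subtype.ext (hlin.2 c _ x.2) }
  have h := rigid_MulAlg v1 hcc (fun a => Subtype.ext (hA a a.2)) ⟨x, hx⟩
  exact congrArg Subtype.val h

theorem isInjectiveEnvelope : IsInjectiveEnvelope.{u} (AA : Set (HH J →L[ℂ] HH J))
    (MulAlg ℕ : Set (HH ℕ →L[ℂ] HH ℕ)) io where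
  algebra := isCStar_MulAlg
  embedding := isEmbedding_io
  injective := isInjective_MulAlg
  rigid := rigid_io

/-- the map `j` as a function on all operators -/
def jf (T : HH ℕ →L[ℂ] HH ℕ) : HH J →L[ℂ] HH J := (exists_jop T).choose

theorem jm_val (T : MulAlg ℕ) : jm T = jf (T : HH ℕ →L[ℂ] HH ℕ) := rfl

theorem jf_lin : LinOn (MulAlg ℕ : Set (HH ℕ →L[ℂ] HH ℕ)) jf := by
  refine ⟨fun a ha b hb => ?_, fun c a ha => ?_⟩
  · have h : jm (⟨a, ha⟩ + ⟨b, hb⟩) = jm ⟨a, ha⟩ + jm ⟨b, hb⟩ := map_add jm _ _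
    exact h
  · have h : jm (c • (⟨a, ha⟩ : MulAlg ℕ)) = c • jm ⟨a, ha⟩ := map_smul jm _ _
    exact h

theorem jf_CI : CI (MulAlg ℕ : Set (HH ℕ →L[ℂ] HH ℕ)) jf := by
  rw [CI_iff]
  exact jm_CI

theorem jf_io : ∀ a ∈ (AA : Set (HH J →L[ℂ] HH J)), jf (io a) = a :=
  fun a ha => jm_im ⟨a, ha⟩

theorem range_jm : Set.range jm = jf '' (MulAlg ℕ : Set (HH ℕ →L[ℂ] HH ℕ)) := by
  ext T
  constructor
  · rintro ⟨x, rfl⟩
    exact ⟨x, x.2, rfl⟩
  · rintro ⟨x, hx, rfl⟩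
    exact ⟨⟨x, hx⟩, rfl⟩

end

end Q89.NM
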