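import Mathlib
import Pool.Agent.Q89.TW.Mono

/-! Matrices of operators as operators, and multiplication operators. -/

set_option autoImplicit false

namespace Q89.NM

open Filter Topology

noncomputable section

section MatOp

variable {H : Type*} [NormedAddCommGroup H] [InnerProductSpace ℂ H]

/-- An `m × n` matrix of operators on `H`, as an operator from `H^n` to `H^m`. -/
def matOp {m n : ℕ} (X : Matrix (Fin m) (Fin n) (H →L[ℂ] H)) :
    PiLp 2 (fun _ : Fin n => H) →L[ℂ] PiLp 2 (fun _ : Fin m => H) :=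
  ((PiLp.continuousLinearEquiv 2 ℂ (fun _ : Fin m => H)).symm :
      (∀ _ : Fin m, H) →L[ℂ] PiLp 2 (fun _ : Fin m => H)) ∘L
    (ContinuousLinearMap.pi fun i => ∑ j, (X i j) ∘L ContinuousLinearMap.proj j) ∘L
    ((PiLp.continuousLinearEquiv 2 ℂ (fun _ : Fin n => H)) :
      PiLp 2 (fun _ : Fin n => H) →L[ℂ] (∀ _ : Fin n, H))

theorem matOp_apply {m n : ℕ} (X : Matrix (Fin m) (Fin n) (H →L[ℂ] H))
    (ξ : PiLp 2 (fun _ : Fin n => H)) (i : Fin m) : matOp X ξ i = ∑ j, X i j (ξ j) := by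
  simp [matOp]

theorem norm_matOp_le_iff {m n : ℕ} (X : Matrix (Fin m) (Fin n) (H →L[ℂ] H)) {c : ℝ}
    (hc : 0 ≤ c) : ‖matOp X‖ ≤ c ↔
      ∀ ξ : Fin n → H, ∑ i, ‖∑ j, X i j (ξ j)‖ ^ 2 ≤ c ^ 2 * ∑ j, ‖ξ j‖ ^ 2 := by
  rw [ContinuousLinearMap.opNorm_le_iff hc]
  have key : ∀ ξ : PiLp 2 (fun _ : Fin n => H), ‖matOp X ξ‖ ≤ c * ‖ξ‖ ↔
      ∑ i, ‖∑ j, X i j (ξ j)‖ ^ 2 ≤ c ^ 2 * ∑ j, ‖ξ j‖ ^ 2 := by
    intro ξ
    have h1 : ∑ i, ‖∑ j, X i j (ξ j)‖ ^ 2 = ‖matOp X ξ‖ ^ 2 := by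
      rw [PiLp.norm_sq_eq_of_L2]
      simp only [matOp_apply]
    have h2 : ∑ j, ‖ξ j‖ ^ 2 = ‖ξ‖ ^ 2 := by
      rw [PiLp.norm_sq_eq_of_L2]
    rw [h1, h2, ← mul_pow]
    exact (pow_le_pow_iff_left₀ (norm_nonneg _) (by positivity) two_ne_zero).symm
  constructor
  · intro h ξ
    exact (key (WithLp.toLp 2 ξ)).mp (h _)
  · intro h ξ
    exact (key ξ).mpr (h _)

theorem matOp_bound {m n : ℕ} (X : Matrix (Fin m) (Fin n) (H →L[ℂ] H)) (ξ : Fin n → H) :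
    ∑ i, ‖∑ j, X i j (ξ j)‖ ^ 2 ≤ ‖matOp X‖ ^ 2 * ∑ j, ‖ξ j‖ ^ 2 :=
  (norm_matOp_le_iff X (c := ‖matOp X‖) (norm_nonneg (matOp X))).mp le_rfl ξ

/-- The norm of an `m × n` matrix of operators on `H`, as an operator from `H^n` to `H^m`: the
least `c ≥ 0` with `‖X ξ‖² ≤ c² ‖ξ‖²` for all `ξ ∈ H^n`. -/
def mnorm {m n : ℕ} (X : Matrix (Fin m) (Fin n) (H →L[ℂ] H)) : ℝ :=
  sInf {c : ℝ | 0 ≤ c ∧ ∀ ξ : Fin n → H, ∑ i, ‖∑ j, X i j (ξ j)‖ ^ 2 ≤ c ^ 2 * ∑ j, ‖ξ j‖ ^ 2}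

theorem mnorm_eq {m n : ℕ} (X : Matrix (Fin m) (Fin n) (H →L[ℂ] H)) : mnorm X = ‖matOp X‖ := by
  refine le_antisymm (csInf_le ⟨0, fun c hc => hc.1⟩
    ⟨ContinuousLinearMap.opNorm_nonneg _, matOp_bound X⟩) ?_
  refine le_csInf ⟨_, ContinuousLinearMap.opNorm_nonneg _, matOp_bound X⟩ ?_
  rintro c ⟨hc0, hc⟩
  exact (norm_matOp_le_iff X hc0).mpr hc

end MatOp

/-! ### multiplication operators -/

section Mul

variable {ι : Type*}

/-- `T` is multiplication by the function `f`. -/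
def IsMul (T : HH ι →L[ℂ] HH ι) (f : ι → ℂ) : Prop := ∀ (x : HH ι) (i : ι), T x i = f i * x i

variable {S T : HH ι →L[ℂ] HH ι} {f g : ι → ℂ}

theorem IsMul.add (hS : IsMul S f) (hT : IsMul T g) : IsMul (S + T) (f + g) := by
  intro x i
  have h1 : (S + T) x i = S x i + T x i := rfl
  rw [h1, hS, hT, Pi.add_apply, add_mul]

theorem IsMul.sub (hS : IsMul S f) (hT : IsMul T g) : IsMul (S - T) (f - g) := by
  intro x i
  have h1 : (S - T) x i = S x i - T x i := rfl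
  rw [h1, hS, hT, Pi.sub_apply, sub_mul]

theorem IsMul.mul (hS : IsMul S f) (hT : IsMul T g) : IsMul (S * T) (f * g) := by
  intro x i
  have h1 : (S * T) x i = S (T x) i := rfl
  rw [h1, hS, hT, Pi.mul_apply, mul_assoc]

theorem IsMul.smul (c : ℂ) (hS : IsMul S f) : IsMul (c • S) (c • f) := by
  intro x i
  have h1 : (c • S) x i = c * S x i := rfl
  rw [h1, hS, Pi.smul_apply, smul_eq_mul, mul_assoc]

theorem IsMul.zero : IsMul (0 : HH ι →L[ℂ] HH ι) 0 := by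
  intro x i
  have h1 : (0 : HH ι →L[ℂ] HH ι) x i = 0 := rfl
  rw [h1, Pi.zero_apply, zero_mul]

theorem IsMul.one : IsMul (1 : HH ι →L[ℂ] HH ι) 1 := by
  intro x i
  have h1 : (1 : HH ι →L[ℂ] HH ι) x i = x i := rfl
  rw [h1, Pi.one_apply, one_mul]

theorem IsMul.const (c : ℂ) : IsMul (algebraMap ℂ (HH ι →L[ℂ] HH ι) c) (fun _ => c) := by
  intro x i
  rw [Algebra.algebraMap_eq_smul_one]
  rfl

theorem IsMul.unique (hS : IsMul S f) (hT : IsMul T f) : S = T := by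
  ext x i
  rw [hS, hT]

variable [DecidableEq ι]

theorem IsMul.apply_δ (hS : IsMul S f) (i : ι) : S (HH.δ i) = f i • HH.δ i := by
  ext j
  rw [hS]
  have h1 : (f i • HH.δ i : HH ι) j = f i * (HH.δ i : HH ι) j := rfl
  rw [h1, HH.δ_apply]
  split_ifs with h
  · rw [h]
  · rw [mul_zero, mul_zero]

theorem IsMul.eq_diag (hS : IsMul S f) (i : ι) : f i = S (HH.δ i) i := by
  rw [hS, HH.δ_apply, if_pos rfl, mul_one]

theorem IsMul.fun_unique (hS : IsMul S f) (hS' : IsMul S g) : f = g := by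
  funext i
  rw [hS.eq_diag, hS'.eq_diag]

theorem diag_le (T : HH ι →L[ℂ] HH ι) (i : ι) : ‖T (HH.δ i) i‖ ≤ ‖T‖ := by
  have h1 := lp.norm_apply_le_norm (p := 2) (by norm_num) (T (HH.δ i)) i
  have h2 := T.le_opNorm (HH.δ i)
  rw [HH.norm_δ, mul_one] at h2
  exact h1.trans h2

theorem IsMul.norm_le (hS : IsMul S f) (i : ι) : ‖f i‖ ≤ ‖S‖ := by
  rw [hS.eq_diag]
  exact diag_le S i

theorem IsMul.star (hS : IsMul S f) : IsMul (Star.star S) (fun i => (starRingEnd ℂ) (f i)) := by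
  intro x i
  rw [← HH.inner_δ i, ContinuousLinearMap.star_eq_adjoint, ContinuousLinearMap.adjoint_inner_right,
    hS.apply_δ, inner_smul_left, HH.inner_δ]

omit [DecidableEq ι] in
/-- Existence of multiplication operators. -/
theorem exists_isMul (f : ι → ℂ) (C : ℝ) (hf : ∀ i, ‖f i‖ ≤ C) :
    ∃ T : HH ι →L[ℂ] HH ι, IsMul T f ∧ ‖T‖ ≤ max C 0 := by
  have hs : ∀ x : HH ι, Summable fun i => ‖f i * x i‖ ^ 2 := by
    intro x
    refine Summable.of_nonneg_of_le (fun i => by positivity) (fun i => ?_)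
      ((HH.summable_sq x).mul_left (max C 0 ^ 2))
    rw [norm_mul, mul_pow]
    have h1 : ‖f i‖ ≤ max C 0 := (hf i).trans (le_max_left _ _)
    gcongr
  refine ⟨LinearMap.mkContinuous
    { toFun := fun x => ⟨fun i => f i * x i, HH.mem_of_summable (hs x)⟩
      map_add' := fun x y => by
        ext i
        exact mul_add _ _ _
      map_smul' := fun a x => by
        ext i
        simp only [lp.coeFn_smul, Pi.smul_apply, smul_eq_mul, RingHom.id_apply]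
        ring } (max C 0) (fun x => ?_), fun x i => rfl,
      LinearMap.mkContinuous_norm_le _ (le_max_right _ _) _⟩
  refine le_of_sq_le_sq ?_ (by positivity)
  rw [HH.norm_sq, mul_pow, HH.norm_sq, ← tsum_mul_left]
  refine Summable.tsum_le_tsum (fun i => ?_) (hs x) ((HH.summable_sq x).mul_left _)
  show ‖f i * x i‖ ^ 2 ≤ _
  rw [norm_mul, mul_pow]
  have h1 : ‖f i‖ ≤ max C 0 := (hf i).trans (le_max_left _ _)
  gcongr

/-- The norm of a matrix of multiplication operators. -/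
theorem isMul_matOp_le {m n : ℕ} (X : Matrix (Fin m) (Fin n) (HH ι →L[ℂ] HH ι))
    (F : Fin m → Fin n → ι → ℂ) (hF : ∀ i j, IsMul (X i j) (F i j)) {c : ℝ} (hc : 0 ≤ c) :
    ‖matOp X‖ ≤ c ↔
      ∀ (s : ι) (z : Fin n → ℂ), ∑ i, ‖∑ j, F i j s * z j‖ ^ 2 ≤ c ^ 2 * ∑ j, ‖z j‖ ^ 2 := by
  rw [norm_matOp_le_iff X hc]
  constructor
  · intro h s z
    have h1 := h fun j => z j • HH.δ s
    have h2 : ∀ i, ∑ j, X i j (z j • HH.δ s) = (∑ j, F i j s * z j) • (HH.δ s : HH ι) := by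
      intro i
      rw [Finset.sum_smul]
      refine Finset.sum_congr rfl fun j _ => ?_
      rw [map_smul, (hF i j).apply_δ, smul_smul, mul_comm]
    simp only [h2, norm_smul, HH.norm_δ, mul_one] at h1
    exact h1
  · intro h ξ
    have h1 : ∀ i, ‖∑ j, X i j (ξ j)‖ ^ 2 = ∑' s, ‖∑ j, F i j s * ξ j s‖ ^ 2 := by
      intro i
      rw [HH.norm_sq]
      refine tsum_congr fun s => ?_
      have h2 : (∑ j, X i j (ξ j) : HH ι) s = ∑ j, X i j (ξ j) s := by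
        rw [lp.coeFn_sum, Finset.sum_apply]
      rw [h2, Finset.sum_congr rfl fun j _ => hF i j (ξ j) s]
    have h2 : ∀ i, Summable fun s => ‖∑ j, F i j s * ξ j s‖ ^ 2 := by
      intro i
      have h3 := HH.summable_sq (∑ j, X i j (ξ j))
      refine h3.congr fun s => ?_
      have h2 : (∑ j, X i j (ξ j) : HH ι) s = ∑ j, X i j (ξ j) s := by
        rw [lp.coeFn_sum, Finset.sum_apply]
      rw [h2, Finset.sum_congr rfl fun j _ => hF i j (ξ j) s]
    have h3 : ∑ i, ‖∑ j, X i j (ξ j)‖ ^ 2 = ∑' s, ∑ i, ‖∑ j, F i j s * ξ j s‖ ^ 2 := by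
      rw [Summable.tsum_finsetSum fun i _ => h2 i]
      exact Finset.sum_congr rfl fun i _ => h1 i
    have h4 : ∑ j, ‖ξ j‖ ^ 2 = ∑' s, ∑ j, ‖ξ j s‖ ^ 2 := by
      rw [Summable.tsum_finsetSum fun i _ => HH.summable_sq (ξ i)]
      exact Finset.sum_congr rfl fun i _ => HH.norm_sq (ξ i)
    rw [h3, h4, ← tsum_mul_left]
    refine Summable.tsum_le_tsum (fun s => h s fun j => ξ j s)
      (summable_sum fun i _ => h2 i) ((summable_sum fun i _ => HH.summable_sq (ξ i)).mul_left _)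

end Mul

end

end Q89.NM
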