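import Pool.Agent.Q89.NM.Inj

/-! The copy of the injective envelope norms all operators, the algebra `A` does not. -/

set_option autoImplicit false

namespace Q89.NM

open Filter Topology

noncomputable section

section Upper

variable {H : Type} [NormedAddCommGroup H] [InnerProductSpace ℂ H] [CompleteSpace H]

/-- the bound for rows -/
theorem row_bound {k : ℕ} {R : Fin k → H →L[ℂ] H}
    (hR : ‖matOp (Matrix.of fun (_ : Fin 1) (i : Fin k) => R i)‖ ≤ 1) (y : Fin k → H) :
    ‖∑ i, R i (y i)‖ ^ 2 ≤ ∑ i, ‖y i‖ ^ 2 := by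
  have h := matOp_bound (Matrix.of fun (_ : Fin 1) (i : Fin k) => R i) y
  simp only [Finset.univ_unique, Finset.sum_singleton, Matrix.of_apply] at h
  refine h.trans (mul_le_of_le_one_left (Finset.sum_nonneg fun i _ => by positivity) ?_)
  exact pow_le_one₀ (ContinuousLinearMap.opNorm_nonneg _) hR

/-- the bound for columns -/
theorem col_bound {k : ℕ} {C : Fin k → H →L[ℂ] H}
    (hC : ‖matOp (Matrix.of fun (j : Fin k) (_ : Fin 1) => C j)‖ ≤ 1) (w : H) :
    ∑ j, ‖C j w‖ ^ 2 ≤ ‖w‖ ^ 2 := by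
  have h := matOp_bound (Matrix.of fun (j : Fin k) (_ : Fin 1) => C j) fun _ => w
  simp only [Finset.univ_unique, Finset.sum_singleton, Matrix.of_apply] at h
  refine h.trans (mul_le_of_le_one_left (by positivity) ?_)
  exact pow_le_one₀ (ContinuousLinearMap.opNorm_nonneg _) hC

theorem rxc_apply {k : ℕ} (R C : Fin k → H →L[ℂ] H) (X : Matrix (Fin k) (Fin k) (H →L[ℂ] H))
    (w : H) : rxc R X C w = ∑ i, R i (∑ j, X i j (C j w)) := by
  unfold rxc
  rw [_root_.sum_apply]
  refine Finset.sum_congr rfl fun i _ => ?_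
  rw [_root_.sum_apply, map_sum]
  rfl

theorem rxc_le {k : ℕ} {R C : Fin k → H →L[ℂ] H} (X : Matrix (Fin k) (Fin k) (H →L[ℂ] H))
    (hR : ‖matOp (Matrix.of fun (_ : Fin 1) (i : Fin k) => R i)‖ ≤ 1)
    (hC : ‖matOp (Matrix.of fun (j : Fin k) (_ : Fin 1) => C j)‖ ≤ 1) :
    ‖rxc R X C‖ ≤ ‖matOp X‖ := by
  refine ContinuousLinearMap.opNorm_le_bound _ (norm_nonneg (matOp X)) fun w => ?_
  rw [rxc_apply]
  refine le_of_sq_le_sq ?_ (by positivity)
  calc _ ≤ ∑ i, ‖∑ j, X i j (C j w)‖ ^ 2 := row_bound hR _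
    _ ≤ ‖matOp X‖ ^ 2 * ∑ j, ‖C j w‖ ^ 2 := matOp_bound X _
    _ ≤ ‖matOp X‖ ^ 2 * ‖w‖ ^ 2 := by
      gcongr
      exact col_bound hC w
    _ = _ := (mul_pow _ _ _).symm

end Upper

/-! ### truncations -/

/-- truncation to a finite set -/
def tr (G : Finset J) (x : HH J) : HH J := ∑ s ∈ G, lp.single 2 s (x s)

theorem tr_apply (G : Finset J) (x : HH J) (s : J) : tr G x s = if s ∈ G then x s else 0 := by
  unfold tr
  rw [lp.coeFn_sum, Finset.sum_apply]
  split_ifs with h
  · rw [Finset.sum_eq_single s]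
    · rw [lp.single_apply, Pi.single_eq_same]
    · intro t _ ht
      rw [lp.single_apply, Pi.single_eq_of_ne ht.symm]
    · exact fun h' => (h' h).elim
  · refine Finset.sum_eq_zero fun t ht => ?_
    have : s ≠ t := fun e => h (e ▸ ht)
    rw [lp.single_apply, Pi.single_eq_of_ne this]

theorem tr_tendsto (x : HH J) : Tendsto (fun G => tr G x) atTop (𝓝 x) :=
  lp.hasSum_single (p := 2) (by norm_num) x

theorem inner_tr (G : Finset J) (x : HH J) : inner ℂ (tr G x) x = ((‖tr G x‖ ^ 2 : ℝ) : ℂ) := by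
  have h1 : ‖tr G x‖ ^ 2 = ∑ s ∈ G, ‖x s‖ ^ 2 := by
    rw [HH.norm_sq, tsum_eq_sum (s := G)]
    · refine Finset.sum_congr rfl fun s hs => ?_
      rw [tr_apply, if_pos hs]
    · intro s hs
      rw [tr_apply, if_neg hs, norm_zero]
      norm_num
  rw [h1]
  unfold tr
  rw [sum_inner]
  push_cast
  refine Finset.sum_congr rfl fun s _ => ?_
  rw [lp.inner_single_left]
  simp only [RCLike.inner_apply]
  rw [Complex.mul_conj, Complex.normSq_eq_norm_sq]
  push_cast
  rfl

/-! ### the modulus of a family -/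

/-- the pointwise `ℓ²` norm of a family -/
def vv {k : ℕ} (a : Fin k → HH J) : HH J :=
  ⟨fun s => ((√(∑ j, ‖a j s‖ ^ 2) : ℝ) : ℂ), HH.mem_of_summable (by
    have h : ∀ s, ‖((√(∑ j, ‖a j s‖ ^ 2) : ℝ) : ℂ)‖ ^ 2 = ∑ j, ‖a j s‖ ^ 2 := fun s => by
      rw [Complex.norm_real, Real.norm_of_nonneg (Real.sqrt_nonneg _), Real.sq_sqrt
        (Finset.sum_nonneg fun j _ => by positivity)]
    simp only [h]
    exact summable_sum fun j _ => HH.summable_sq (a j))⟩

theorem vv_apply {k : ℕ} (a : Fin k → HH J) (s : J) :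
    vv a s = ((√(∑ j, ‖a j s‖ ^ 2) : ℝ) : ℂ) := rfl

theorem norm_vv_apply {k : ℕ} (a : Fin k → HH J) (s : J) : ‖vv a s‖ ^ 2 = ∑ j, ‖a j s‖ ^ 2 := by
  rw [vv_apply, Complex.norm_real, Real.norm_of_nonneg (Real.sqrt_nonneg _), Real.sq_sqrt
    (Finset.sum_nonneg fun j _ => by positivity)]

theorem norm_vv {k : ℕ} (a : Fin k → HH J) : ‖vv a‖ ^ 2 = ∑ j, ‖a j‖ ^ 2 := by
  rw [HH.norm_sq]
  simp only [norm_vv_apply]
  rw [Summable.tsum_finsetSum fun i _ => HH.summable_sq (a i)]
  exact Finset.sum_congr rfl fun j _ => (HH.norm_sq (a j)).symm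

/-- the phases -/
def ph {k : ℕ} (a : Fin k → HH J) (i : Fin k) (s : J) : ℂ := a i s / vv a s

theorem ph_mul {k : ℕ} (a : Fin k → HH J) (i : Fin k) (s : J) : ph a i s * vv a s = a i s := by
  unfold ph
  by_cases h : vv a s = 0
  · have h1 := norm_vv_apply a s
    rw [h, norm_zero] at h1
    have h2 : ‖a i s‖ ^ 2 = 0 := by
      have := (Finset.sum_eq_zero_iff_of_nonneg (s := Finset.univ) (f := fun j => ‖a j s‖ ^ 2)
        (fun j _ => by positivity)).mp (by rw [← h1]; norm_num) i (Finset.mem_univ i)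
      exact this
    have h3 : a i s = 0 := by simpa using h2
    rw [h, h3, mul_zero]
  · exact div_mul_cancel₀ _ h

theorem ph_le {k : ℕ} (a : Fin k → HH J) (s : J) : ∑ i, ‖ph a i s‖ ^ 2 ≤ 1 := by
  unfold ph
  simp only [norm_div, div_pow]
  rw [← Finset.sum_div, ← norm_vv_apply]
  exact div_self_le_one _

/-! ### interpolation -/

theorem interp {k : ℕ} (c : Fin k → J → ℂ) (hc : ∀ s, ∑ i, ‖c i s‖ ^ 2 ≤ 1) (P : Finset J) :
    ∃ T : Fin k → MulAlg ℕ, ∃ F : Fin k → J → ℂ, (∀ i, IsMul (jm (T i)) (F i)) ∧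
      (∀ i, ∀ s ∈ P, F i s = c i s) ∧ ∀ s, ∑ i, ‖F i s‖ ^ 2 ≤ 1 := by
  classical
  let p : ℕ → J := fun n => if Sum.inl n ∈ P then Sum.inl n else Sum.inr (decide (n % 2 = 1))
  have hb : ∀ i n, ‖c i (p n)‖ ≤ 1 := by
    intro i n
    have h1 := hc (p n)
    have h2 : ‖c i (p n)‖ ^ 2 ≤ 1 :=
      (Finset.single_le_sum (f := fun i => ‖c i (p n)‖ ^ 2) (fun j _ => by positivity)
        (Finset.mem_univ i)).trans h1
    exact le_of_sq_le_sq (by rw [one_pow]; exact h2) zero_le_one
  choose S hS hS' using fun i => exists_isMul (fun n => c i (p n)) 1 (hb i)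
  refine ⟨fun i => ⟨S i, _, hS i⟩, fun i => ex fun n => c i (p n), ?_, ?_, ?_⟩
  · intro i
    have := jm_spec ⟨S i, _, hS i⟩
    rw [(hS i).dg_eq] at this
    exact this
  · intro i s hs
    rcases s with n | b
    · show c i (p n) = _
      have : p n = Sum.inl n := if_pos hs
      rw [this]
    · refine ex_inr (f := fun n => c i (p n)) ?_
      refine tendsto_const_nhds.congr' ?_
      have h1 : ∀ᶠ n in atTop, (Sum.inl (2 * n + b.toNat) : J) ∉ P := by
        have h2 : Set.Finite {n : ℕ | (Sum.inl (2 * n + b.toNat) : J) ∈ P} := by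
          refine Set.Finite.preimage (f := fun n : ℕ => (Sum.inl (2 * n + b.toNat) : J)) ?_
            P.finite_toSet
          intro x _ y _ hxy
          have := Sum.inl_injective hxy
          omega
        have h3 := h2.eventually_cofinite_notMem
        rw [Nat.cofinite_eq_atTop] at h3
        exact h3
      filter_upwards [h1.filter_mono U_le] with n hn
      have h4 : p (2 * n + b.toNat) = Sum.inr (decide ((2 * n + b.toNat) % 2 = 1)) := if_neg hn
      rw [h4]
      cases b
      · simp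
      · have : (2 * n + true.toNat) % 2 = 1 := by
          simp only [Bool.toNat_true]
          omega
        rw [this]
        rfl
  · intro s
    have h := scal_lim (fun i (_ : Fin 1) n => c i (p n)) 1 (fun i _ n => hb i n) (c := 1)
      (fun n z => by
        simp only [Finset.univ_unique, Finset.sum_singleton, norm_mul, mul_pow]
        rw [← Finset.sum_mul, one_pow]
        gcongr
        exact hc (p n)) s fun _ => 1
    simpa using h

/-- The copy of the injective envelope norms `B(H)`. -/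
theorem norms_jm : Norms (Set.range jm) (Set.univ : Set (HH J →L[ℂ] HH J)) := by
  intro k X _
  rw [mn_eq]
  constructor
  · rintro r ⟨R, hR, C, hC, rfl⟩
    rw [mem_BallRow] at hR
    rw [mem_BallCol] at hC
    replace hR := hR.2
    replace hC := hC.2
    exact rxc_le X hR hC
  · intro c hc
    -- `c` is nonnegative
    have h0 : (0 : HH J →L[ℂ] HH J) ∈ Set.range jm := ⟨0, map_zero jm⟩
    have hc0 : 0 ≤ c := by
      refine hc ⟨fun _ => 0, mem_BallRow.mpr ⟨fun _ => h0, ?_⟩, fun _ => 0,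
        mem_BallCol.mpr ⟨fun _ => h0, ?_⟩, ?_⟩
      · rw [norm_matOp_le_iff _ zero_le_one]
        intro ξ
        simp
        positivity
      · rw [norm_matOp_le_iff _ zero_le_one]
        intro ξ
        simp
      · simp [rxc]
    -- the inequality for truncated vectors
    have key : ∀ (ξ : Fin k → HH J) (G F : Finset J),
        ∑ i, ‖tr F (∑ j, X i j (tr G (ξ j)))‖ ^ 2 ≤ c ^ 2 * ∑ j, ‖tr G (ξ j)‖ ^ 2 := by
      intro ξ G F
      set a : Fin k → HH J := fun j => tr G (ξ j) with ha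
      set y : Fin k → HH J := fun i => ∑ j, X i j (a j) with hy
      set η : Fin k → HH J := fun i => tr F (y i) with hη
      obtain ⟨T, Fc, hT, hFc, hFc1⟩ := interp (ph a) (ph_le a) G
      obtain ⟨S, Fr, hS, hFr, hFr1⟩ := interp (fun i s => (starRingEnd ℂ) (ph η i s))
        (fun s => by simpa only [RCLike.norm_conj] using ph_le η s) F
      -- the columns
      have hcol : ∀ j, jm (T j) (vv a) = a j := by
        intro j
        ext s
        rw [hT j]
        by_cases hs : s ∈ G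
        · rw [hFc j s hs, ph_mul]
        · have h1 : ∀ j, a j s = 0 := fun j => by rw [ha]; simp only [tr_apply, if_neg hs]
          have h2 : vv a s = 0 := by
            rw [vv_apply]
            simp [h1]
          rw [h1, h2, mul_zero]
      have hcoln : ‖matOp (Matrix.of fun (j : Fin k) (_ : Fin 1) => jm (T j))‖ ≤ 1 := by
        rw [isMul_matOp_le (Matrix.of fun (j : Fin k) (_ : Fin 1) => jm (T j))
          (fun j _ => Fc j) (fun j _ => hT j) zero_le_one]
        intro s z
        simp only [Finset.univ_unique, Finset.sum_singleton, norm_mul, mul_pow]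
        rw [← Finset.sum_mul, one_pow]
        gcongr
        exact hFc1 s
      have hrown : ‖matOp (Matrix.of fun (_ : Fin 1) (i : Fin k) => jm (S i))‖ ≤ 1 := by
        rw [isMul_matOp_le (Matrix.of fun (_ : Fin 1) (i : Fin k) => jm (S i))
          (fun _ i => Fr i) (fun _ i => hS i) zero_le_one]
        intro s z
        simp only [Finset.univ_unique, Finset.sum_singleton]
        have h1 : ‖∑ j, Fr j s * z j‖ ≤ ∑ j, ‖Fr j s‖ * ‖z j‖ :=
          (norm_sum_le _ _).trans_eq (Finset.sum_congr rfl fun j _ => norm_mul _ _)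
        have h2 := Finset.sum_mul_sq_le_sq_mul_sq Finset.univ (fun j => ‖Fr j s‖)
          (fun j => ‖z j‖)
        calc _ ≤ (∑ j, ‖Fr j s‖ * ‖z j‖) ^ 2 := by gcongr
          _ ≤ (∑ j, ‖Fr j s‖ ^ 2) * ∑ j, ‖z j‖ ^ 2 := h2
          _ ≤ 1 ^ 2 * ∑ j, ‖z j‖ ^ 2 := by
            rw [one_pow]
            gcongr
            exact hFr1 s
      have hmain := hc ⟨fun i => jm (S i), mem_BallRow.mpr ⟨fun i => ⟨_, rfl⟩, hrown⟩,
        fun j => jm (T j), mem_BallCol.mpr ⟨fun j => ⟨_, rfl⟩, hcoln⟩, rfl⟩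
      have happ := ContinuousLinearMap.le_of_opNorm_le _ hmain (vv a)
      rw [rxc_apply] at happ
      simp only [hcol] at happ
      -- the pairing
      have hrow : ∀ i, inner ℂ (vv η) (jm (S i) (y i)) = inner ℂ (η i) (y i) := by
        intro i
        have h1 : inner ℂ (vv η) (jm (S i) (y i)) = inner ℂ (star (jm (S i)) (vv η)) (y i) := by
          rw [ContinuousLinearMap.star_eq_adjoint, ContinuousLinearMap.adjoint_inner_left]
        rw [h1]
        congr 1
        ext s
        refine ((hS i).star (vv η) s).trans ?_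
        show (starRingEnd ℂ) (Fr i s) * vv η s = η i s
        by_cases hs : s ∈ F
        · rw [hFr i s hs, Complex.conj_conj, ph_mul]
        · have h1 : ∀ j, η j s = 0 := fun j => by rw [hη]; simp only [tr_apply, if_neg hs]
          have h2 : vv η s = 0 := by
            rw [vv_apply]
            simp [h1]
          rw [h1, h2, mul_zero]
      set N : ℝ := ∑ i, ‖η i‖ ^ 2 with hN
      have hN0 : 0 ≤ N := Finset.sum_nonneg fun i _ => by positivity
      have h1 : ((N : ℝ) : ℂ) = inner ℂ (vv η) (∑ i, jm (S i) (y i)) := by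
        rw [inner_sum, Finset.sum_congr rfl fun i _ => hrow i, hN]
        push_cast
        refine Finset.sum_congr rfl fun i _ => ?_
        rw [hη]
        simp only
        rw [inner_tr]
        push_cast
        rfl
      have h2 : N ≤ ‖vv η‖ * (c * ‖vv a‖) := by
        have e1 : N = ‖((N : ℝ) : ℂ)‖ := by rw [Complex.norm_real, Real.norm_of_nonneg hN0]
        rw [e1, h1]
        refine (norm_inner_le_norm _ _).trans ?_
        gcongr
      have h3 : ‖vv η‖ ^ 2 = N := norm_vv η
      have h4 : ‖vv a‖ ^ 2 = ∑ j, ‖a j‖ ^ 2 := norm_vv a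
      have h5 : ‖vv η‖ ≤ c * ‖vv a‖ := by
        rcases (norm_nonneg (vv η)).eq_or_lt with h | h
        · rw [← h]
          positivity
        · rw [← h3, sq] at h2
          exact le_of_mul_le_mul_left h2 h
      rw [← h3, ← h4, ← mul_pow]
      gcongr
    -- passing to the limit
    rw [norm_matOp_le_iff X hc0]
    intro ξ
    have step1 : ∀ G : Finset J,
        ∑ i, ‖∑ j, X i j (tr G (ξ j))‖ ^ 2 ≤ c ^ 2 * ∑ j, ‖tr G (ξ j)‖ ^ 2 := by
      intro G
      refine le_of_tendsto (f := fun F => ∑ i, ‖tr F (∑ j, X i j (tr G (ξ j)))‖ ^ 2)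
        (tendsto_finsetSum _ fun i _ => ((tr_tendsto _).norm).pow 2)
        (Eventually.of_forall fun F => key ξ G F)
    refine le_of_tendsto_of_tendsto' (f := fun G => ∑ i, ‖∑ j, X i j (tr G (ξ j))‖ ^ 2)
      (g := fun G => c ^ 2 * ∑ j, ‖tr G (ξ j)‖ ^ 2) (tendsto_finsetSum _ fun i _ => ?_)
      ((tendsto_finsetSum _ fun j _ => ((tr_tendsto _).norm).pow 2).const_mul _) step1
    refine Tendsto.pow (Tendsto.norm (tendsto_finsetSum _ fun j _ => ?_)) 2
    exact ((X i j).continuous.tendsto _).comp (tr_tendsto (ξ j))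

/-! ### the algebra `A` does not norm -/

/-- the two extra points -/
def qq (i : Fin 2) : J := Sum.inr (decide (i = 1))

theorem qq_inj : Function.Injective qq := by
  intro i j h
  have h1 := Sum.inr_injective h
  fin_cases i <;> fin_cases j <;> simp_all

theorem Cv.qq {F : J → ℂ} (h : Cv F) (i : Fin 2) : F (qq i) = F (Sum.inr false) := by
  fin_cases i
  · rfl
  · exact h.2

/-- matrix units on the two extra coordinates -/
def eu (i j : Fin 2) : HH J →L[ℂ] HH J := (innerSL ℂ (HH.δ (qq j))).smulRight (HH.δ (qq i))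

theorem eu_apply (i j : Fin 2) (x : HH J) : eu i j x = x (qq j) • (HH.δ (qq i) : HH J) := by
  unfold eu
  rw [ContinuousLinearMap.smulRight_apply, innerSL_apply_apply, HH.inner_δ]

theorem not_norms : ¬ Norms (AA : Set (HH J →L[ℂ] HH J)) Set.univ := by
  intro hN
  have hlub := hN 2 (Matrix.of eu) fun _ _ => Set.mem_univ _
  rw [mn_eq] at hlub
  have h1 : ‖matOp (Matrix.of eu)‖ ≤ 1 := by
    refine hlub.2 ?_
    rintro r ⟨R, hRR, C, hCC, rfl⟩
    obtain ⟨hRA, hR⟩ := mem_BallRow.mp hRR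
    obtain ⟨hCA, hC⟩ := mem_BallCol.mp hCC
    have hR1 := fun i => AA_spec (hRA i)
    have hC1 := fun i => AA_spec (hCA i)
    set ρ : Fin 2 → ℂ := fun i => dg (R i) (Sum.inr false) with hρ
    set γ : Fin 2 → ℂ := fun i => dg (C i) (Sum.inr false) with hγ
    have hρ1 : ∑ i, ‖ρ i‖ ^ 2 ≤ 1 := by
      have h2 := (isMul_matOp_le _ (fun (_ : Fin 1) i => dg (R i)) (fun _ i => (hR1 i).1)
        zero_le_one).mp hR (Sum.inr false) fun i => (starRingEnd ℂ) (ρ i)
      simp only [Finset.univ_unique, Finset.sum_singleton, RCLike.norm_conj] at h2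
      have h3 : ∑ j, dg (R j) (Sum.inr false) * (starRingEnd ℂ) (ρ j) =
          ((∑ i, ‖ρ i‖ ^ 2 : ℝ) : ℂ) := by
        push_cast
        refine Finset.sum_congr rfl fun i _ => ?_
        rw [Complex.mul_conj, Complex.normSq_eq_norm_sq]
        push_cast
        rfl
      rw [h3, Complex.norm_real, Real.norm_of_nonneg (Finset.sum_nonneg fun i _ => by positivity)]
        at h2
      by_contra hlt
      push Not at hlt
      nlinarith
    have hγ1 : ∑ i, ‖γ i‖ ^ 2 ≤ 1 := by
      have h2 := (isMul_matOp_le _ (fun i (_ : Fin 1) => dg (C i)) (fun i _ => (hC1 i).1)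
        zero_le_one).mp hC (Sum.inr false) fun _ => 1
      simpa using h2
    refine ContinuousLinearMap.opNorm_le_bound _ zero_le_one fun w => ?_
    rw [rxc_apply]
    have h2 : ∀ i, R i (∑ j, (Matrix.of eu) i j (C j w)) =
        ((∑ j, γ j * w (qq j)) * ρ i) • (HH.δ (qq i) : HH J) := by
      intro i
      have h3 : ∑ j, (Matrix.of eu) i j (C j w) = (∑ j, γ j * w (qq j)) • (HH.δ (qq i) : HH J) := by
        rw [Finset.sum_smul]
        refine Finset.sum_congr rfl fun j _ => ?_
        rw [Matrix.of_apply, eu_apply, (hC1 j).1, (hC1 j).2.qq]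
      rw [h3, map_smul, (hR1 i).1.apply_δ, (hR1 i).2.qq, smul_smul]
    rw [Finset.sum_congr rfl fun i _ => h2 i]
    refine le_of_sq_le_sq ?_ (by positivity)
    rw [one_mul]
    set σ := ∑ j, γ j * w (qq j) with hσ
    have h3 : ‖∑ i, (σ * ρ i) • (HH.δ (qq i) : HH J)‖ ^ 2 = ‖σ‖ ^ 2 * ∑ i, ‖ρ i‖ ^ 2 := by
      have h4 : ∀ s : J, (∑ i, (σ * ρ i) • (HH.δ (qq i) : HH J) : HH J) s =
          ∑ i, σ * ρ i * (if s = qq i then 1 else 0) := by
        intro s
        rw [lp.coeFn_sum, Finset.sum_apply]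
        refine Finset.sum_congr rfl fun i _ => ?_
        rw [← HH.δ_apply]
        rfl
      rw [HH.norm_sq, tsum_eq_sum (s := Finset.univ.image qq)]
      · rw [Finset.sum_image fun i _ j _ h => qq_inj h, Finset.mul_sum]
        refine Finset.sum_congr rfl fun i _ => ?_
        rw [h4, Finset.sum_eq_single i]
        · rw [if_pos rfl, mul_one, norm_mul, mul_pow]
        · intro j _ hj
          rw [if_neg fun h => hj (qq_inj h).symm, mul_zero]
        · exact fun h => (h (Finset.mem_univ i)).elim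
      · intro s hs
        rw [h4, Finset.sum_eq_zero fun i _ => ?_]
        · norm_num
        · rw [if_neg, mul_zero]
          rintro rfl
          exact hs (Finset.mem_image_of_mem _ (Finset.mem_univ i))
    have h4 : ‖σ‖ ^ 2 ≤ (∑ i, ‖γ i‖ ^ 2) * ∑ i, ‖w (qq i)‖ ^ 2 := by
      have h5 : ‖σ‖ ≤ ∑ j, ‖γ j‖ * ‖w (qq j)‖ :=
        (norm_sum_le _ _).trans_eq (Finset.sum_congr rfl fun j _ => norm_mul _ _)
      refine le_trans (by gcongr) (Finset.sum_mul_sq_le_sq_mul_sq Finset.univ (fun j => ‖γ j‖)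
        (fun j => ‖w (qq j)‖))
    have h5 : ∑ i, ‖w (qq i)‖ ^ 2 ≤ ‖w‖ ^ 2 := by
      rw [HH.norm_sq, ← Finset.sum_image (s := Finset.univ) (g := qq) (f := fun s => ‖w s‖ ^ 2)
        fun i _ j _ h => qq_inj h]
      exact (HH.summable_sq w).sum_le_tsum _ fun s _ => by positivity
    rw [h3]
    calc ‖σ‖ ^ 2 * ∑ i, ‖ρ i‖ ^ 2 ≤ (1 * ‖w‖ ^ 2) * 1 := by
          have e1 : 0 ≤ ∑ i, ‖ρ i‖ ^ 2 := Finset.sum_nonneg fun i _ => by positivity
          have e2 : 0 ≤ ∑ i, ‖γ i‖ ^ 2 := Finset.sum_nonneg fun i _ => by positivity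
          have e3 : 0 ≤ ∑ i, ‖w (qq i)‖ ^ 2 := Finset.sum_nonneg fun i _ => by positivity
          refine mul_le_mul (h4.trans (mul_le_mul hγ1 h5 e3 zero_le_one)) hρ1 e1 (by positivity)
      _ = _ := by ring
  have h2 := matOp_bound (Matrix.of eu) fun j => HH.δ (qq j)
  have h3 : ∀ i, ∑ j, (Matrix.of eu) i j (HH.δ (qq j)) = (2 : ℂ) • (HH.δ (qq i) : HH J) := by
    intro i
    have h4 : ∀ j, (Matrix.of eu) i j (HH.δ (qq j)) = (HH.δ (qq i) : HH J) := by
      intro j
      rw [Matrix.of_apply, eu_apply, HH.δ_apply, if_pos rfl, one_smul]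
    rw [Finset.sum_congr rfl fun j _ => h4 j, Finset.sum_const, Finset.card_univ,
      Fintype.card_fin, two_smul, two_smul]
  simp only [h3, norm_smul, HH.norm_δ] at h2
  norm_num at h2
  have h4 : ‖matOp (Matrix.of eu)‖ ^ 2 ≤ 1 := pow_le_one₀ (norm_nonneg _) h1
  linarith

end

end Q89.NM
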